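import Pool.Agent.Helper70.ML.St3

/-!
# Project ML, module PUHK: the positive root group meets the kernel trivially
-/

set_option autoImplicit false

namespace Pool.Agent.Helper32.ML

open Pool.Agent.Helper70.ML Pool.Agent.Helper75.MX

section

variable {n : ℕ} {F : Type} [Field F] {E : Type} [Group E]

/-- the row group -/
def RA (X : Fin n → Fin n → F → E) (m : Fin n) (A : Finset (Fin n)) : Subgroup E :=
  Subgroup.closure {x | ∃ l ∈ A, ∃ a, x = X m l a}

/-- the group of the rows `m` and below -/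
def UM (X : Fin n → Fin n → F → E) (m : ℕ) : Subgroup E :=
  Subgroup.closure {x | ∃ (k l : Fin n) (a : F), m ≤ (k : ℕ) ∧ k < l ∧ x = X k l a}

lemma tv_val (i j : Fin n) (a : F) (h : i ≠ j) : (tv i j a : SLn n F).1 = Matrix.transvection i j a := by
  unfold tv
  rw [dif_pos h]

/-- entries of a product with a root element on the left, same row -/
lemma tv_mul_same (i j : Fin n) (a : F) (h : i ≠ j) (g : SLn n F) (b : Fin n) :
    (tv i j a * g).1 i b = g.1 i b + a * g.1 j b := by
  have e : (tv i j a * g).1 = (tv i j a : SLn n F).1 * g.1 := rfl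
  rw [e, tv_val i j a h, Matrix.transvection_mul_apply_same]

/-- entries of a product with a root element on the left, other rows -/
lemma tv_mul_ne (i j : Fin n) (a : F) (h : i ≠ j) (g : SLn n F) (k b : Fin n) (hk : k ≠ i) :
    (tv i j a * g).1 k b = g.1 k b := by
  have e : (tv i j a * g).1 = (tv i j a : SLn n F).1 * g.1 := rfl
  rw [e, tv_val i j a h]
  exact Matrix.transvection_mul_apply_of_ne (i := i) (j := j) (a := k) (b := b) (ha := hk) (c := a) (M := g.1)

lemma X_zero {φ : E →* SLn n F} {X : Fin n → Fin n → F → E} (hX : Stb φ X) (i j : Fin n)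
    (h : i ≠ j) : X i j 0 = 1 := by
  have h1 := hX.add i j 0 0 h
  rw [add_zero] at h1
  exact mul_eq_left.mp h1

/-- the rows of the image of the row group -/
lemma RA_rows {φ : E →* SLn n F} {X : Fin n → Fin n → F → E} (hX : Stb φ X) (m : Fin n)
    (A : Finset (Fin n)) (hA : ∀ l ∈ A, m < l) (x : E) (hx : x ∈ RA X m A) :
    (∀ k j, k ≠ m → (φ x).1 k j = (1 : Matrix (Fin n) (Fin n) F) k j) ∧ (φ x).1 m m = 1 ∧
      ∀ l, l ∉ A → l ≠ m → (φ x).1 m l = 0 := by
  have step : ∀ (l : Fin n) (a : F) (y : E), l ∈ A →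
      ((∀ k j, k ≠ m → (φ y).1 k j = (1 : Matrix (Fin n) (Fin n) F) k j) ∧ (φ y).1 m m = 1 ∧
        ∀ l, l ∉ A → l ≠ m → (φ y).1 m l = 0) →
      ((∀ k j, k ≠ m → (φ (X m l a * y)).1 k j = (1 : Matrix (Fin n) (Fin n) F) k j) ∧
        (φ (X m l a * y)).1 m m = 1 ∧
        ∀ l', l' ∉ A → l' ≠ m → (φ (X m l a * y)).1 m l' = 0) := by
    intro l a y hl ⟨h1, h2, h3⟩
    have hml : m ≠ l := ne_of_lt (hA l hl)
    have e : φ (X m l a * y) = tv m l a * φ y := by
      rw [map_mul, hX.map m l a hml]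
    rw [e]
    refine ⟨?_, ?_, ?_⟩
    · intro k j hk
      rw [tv_mul_ne m l a hml (φ y) k j hk]
      exact h1 k j hk
    · rw [tv_mul_same m l a hml (φ y) m, h2, h1 l m hml.symm,
        Matrix.one_apply_ne hml.symm, mul_zero, add_zero]
    · intro l' hl' hl'm
      have hll' : l ≠ l' := by
        intro h
        exact hl' (h ▸ hl)
      rw [tv_mul_same m l a hml (φ y) l', h3 l' hl' hl'm, h1 l l' hml.symm,
        Matrix.one_apply_ne hll', mul_zero, add_zero]
  unfold RA at hx
  induction hx using Subgroup.closure_induction_left with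
  | one =>
    rw [map_one]
    refine ⟨?_, ?_, ?_⟩
    · intro k j hk
      rfl
    · exact Matrix.one_apply_eq m
    · intro l hl hlm
      exact Matrix.one_apply_ne hlm.symm
  | mul_left x hx y hy ih =>
    obtain ⟨l, hl, a, rfl⟩ := hx
    exact step l a y hl ih
  | inv_mul_cancel x hx y hy ih =>
    obtain ⟨l, hl, a, rfl⟩ := hx
    have hml : m ≠ l := ne_of_lt (hA l hl)
    rw [← hX.neg m l a hml]
    exact step l (-a) y hl ih

/-- splitting off one generator of the row group -/
lemma RA_insert {φ : E →* SLn n F} {X : Fin n → Fin n → F → E} (hX : Stb φ X) (m l : Fin n)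
    (A : Finset (Fin n)) (hA : ∀ l ∈ A, m < l) (hl : m < l) (x : E) (hx : x ∈ RA X m (insert l A)) :
    ∃ a, ∃ y ∈ RA X m A, x = X m l a * y := by
  have hml : m ≠ l := ne_of_lt hl
  have step : ∀ (l' : Fin n) (b : F) (y : E), l' ∈ insert l A →
      (∃ a, ∃ z ∈ RA X m A, y = X m l a * z) →
      ∃ a, ∃ z ∈ RA X m A, X m l' b * y = X m l a * z := by
    intro l' b y hl' ⟨a, z, hz, hy⟩
    rcases Finset.mem_insert.mp hl' with h | h
    · subst h
      refine ⟨b + a, z, hz, ?_⟩
      rw [hy, ← mul_assoc, hX.add m l' b a hml]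
    · refine ⟨a, X m l' b * z, ?_, ?_⟩
      · exact Subgroup.mul_mem _ (Subgroup.subset_closure ⟨l', h, b, rfl⟩) hz
      · have hml' : m ≠ l' := ne_of_lt (hA l' h)
        rw [hy, ← mul_assoc, hX.com m l' m l b a hml' hml hml'.symm hml, mul_assoc]
  unfold RA at hx
  induction hx using Subgroup.closure_induction_left with
  | one =>
    refine ⟨0, 1, Subgroup.one_mem _, ?_⟩
    rw [X_zero hX m l hml, mul_one]
  | mul_left x hx y hy ih =>
    obtain ⟨l', hl', b, rfl⟩ := hx
    exact step l' b y hl' ih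
  | inv_mul_cancel x hx y hy ih =>
    obtain ⟨l', hl', b, rfl⟩ := hx
    have hml' : m ≠ l' := by
      rcases Finset.mem_insert.mp hl' with h | h
      · rw [h]
        exact hml
      · exact ne_of_lt (hA l' h)
    rw [← hX.neg m l' b hml']
    exact step l' (-b) y hl' ih

/-- the row group meets the kernel trivially -/
lemma RA_ker {φ : E →* SLn n F} {X : Fin n → Fin n → F → E} (hX : Stb φ X) (m : Fin n)
    (A : Finset (Fin n)) : (∀ l ∈ A, m < l) → ∀ x ∈ RA X m A, φ x = 1 → x = 1 := by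
  induction A using Finset.induction_on with
  | empty =>
    intro _ x hx _
    unfold RA at hx
    have e : {x : E | ∃ l ∈ (∅ : Finset (Fin n)), ∃ a, x = X m l a} = ∅ := by
      ext y
      simp
    rw [e, Subgroup.closure_empty] at hx
    exact Subgroup.mem_bot.mp hx
  | insert l A hlA ih =>
    intro hA x hx hφ
    have hA' : ∀ l' ∈ A, m < l' := fun l' h => hA l' (Finset.mem_insert_of_mem h)
    have hl : m < l := hA l (Finset.mem_insert_self l A)
    have hml : m ≠ l := ne_of_lt hl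
    obtain ⟨a, y, hy, rfl⟩ := RA_insert hX m l A hA' hl x hx
    obtain ⟨h1, h2, h3⟩ := RA_rows hX m A hA' y hy
    have e : φ (X m l a * y) = tv m l a * φ y := by
      rw [map_mul, hX.map m l a hml]
    have h4 : (φ (X m l a * y)).1 m l = a := by
      rw [e, tv_mul_same m l a hml (φ y) l, h3 l hlA hml.symm, h1 l l hml.symm,
        Matrix.one_apply_eq, mul_one, zero_add]
    have h5 : (φ (X m l a * y)).1 m l = 0 := by
      rw [hφ]
      exact Matrix.one_apply_ne hml
    have ha : a = 0 := by rw [← h4, h5]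
    subst ha
    rw [X_zero hX m l hml, one_mul] at hφ ⊢
    exact ih hA' y hy hφ

/-- the lower root elements normalise the row group -/
lemma RA_conj {φ : E →* SLn n F} {X : Fin n → Fin n → F → E} (hX : Stb φ X) (m k l : Fin n)
    (c : F) (A : Finset (Fin n)) (hA : ∀ j, j ∈ A ↔ m < j) (hmk : m < k) (hkl : k < l) (x : E)
    (hx : x ∈ RA X m A) : X k l c * x * (X k l c)⁻¹ ∈ RA X m A := by
  have hle : RA X m A ≤ (RA X m A).comap (MulAut.conj (X k l c)).toMonoidHom := by
    unfold RA
    rw [Subgroup.closure_le]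
    rintro y ⟨l', hl', b, rfl⟩
    have hml' : m < l' := (hA l').mp hl'
    change X k l c * X m l' b * (X k l c)⁻¹ ∈ Subgroup.closure {x | ∃ l ∈ A, ∃ a, x = X m l a}
    by_cases h : l' = k
    · subst h
      have hlA : l ∈ A := (hA l).mpr (lt_trans hmk hkl)
      have h1 := hX.cmm m l' l b c (ne_of_lt hmk) (ne_of_lt hkl) (ne_of_lt (lt_trans hmk hkl))
      have h2 : X l' l c * X m l' b * (X l' l c)⁻¹ = (X m l (b * c))⁻¹ * X m l' b := by
        rw [← h1]
        group
      rw [h2]
      exact Subgroup.mul_mem _ (Subgroup.inv_mem _ (Subgroup.subset_closure ⟨l, hlA, _, rfl⟩))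
        (Subgroup.subset_closure ⟨l', hl', b, rfl⟩)
    · have h1 := hX.com k l m l' c b (ne_of_lt hkl) (ne_of_lt hml') (ne_of_gt (lt_trans hmk hkl))
        (fun e => h e.symm)
      rw [h1, mul_assoc, mul_inv_cancel, mul_one]
      exact Subgroup.subset_closure ⟨l', hl', b, rfl⟩
  exact hle hx

/-- splitting off the first row -/
lemma UM_split {φ : E →* SLn n F} {X : Fin n → Fin n → F → E} (hX : Stb φ X) (m : Fin n)
    (A : Finset (Fin n)) (hA : ∀ j, j ∈ A ↔ m < j) (x : E) (hx : x ∈ UM X (m : ℕ)) :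
    ∃ r ∈ RA X m A, ∃ u ∈ UM X ((m : ℕ) + 1), x = r * u := by
  have step : ∀ (k l : Fin n) (c : F) (y : E), (m : ℕ) ≤ (k : ℕ) → k < l →
      (∃ r ∈ RA X m A, ∃ u ∈ UM X ((m : ℕ) + 1), y = r * u) →
      ∃ r ∈ RA X m A, ∃ u ∈ UM X ((m : ℕ) + 1), X k l c * y = r * u := by
    intro k l c y hmk hkl ⟨r, hr, u, hu, hy⟩
    rcases Nat.lt_or_ge (m : ℕ) (k : ℕ) with h | h
    · refine ⟨X k l c * r * (X k l c)⁻¹, RA_conj hX m k l c A hA h hkl r hr, X k l c * u, ?_, ?_⟩
      · exact Subgroup.mul_mem _ (Subgroup.subset_closure ⟨k, l, c, h, hkl, rfl⟩) hu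
      · rw [hy]
        group
    · have hk : k = m := Fin.ext (le_antisymm h hmk)
      subst hk
      refine ⟨X k l c * r, ?_, u, hu, ?_⟩
      · exact Subgroup.mul_mem _ (Subgroup.subset_closure ⟨l, (hA l).mpr hkl, c, rfl⟩) hr
      · rw [hy, mul_assoc]
  unfold UM at hx
  induction hx using Subgroup.closure_induction_left with
  | one =>
    exact ⟨1, Subgroup.one_mem _, 1, Subgroup.one_mem _, (mul_one 1).symm⟩
  | mul_left x hx y hy ih =>
    obtain ⟨k, l, c, hk, hkl, rfl⟩ := hx
    exact step k l c y hk hkl ih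
  | inv_mul_cancel x hx y hy ih =>
    obtain ⟨k, l, c, hk, hkl, rfl⟩ := hx
    rw [← hX.neg k l c (ne_of_lt hkl)]
    exact step k l (-c) y hk hkl ih

/-- the first row of the image of the lower group -/
lemma UM_row {φ : E →* SLn n F} {X : Fin n → Fin n → F → E} (hX : Stb φ X) (m : Fin n)
    (x : E) (hx : x ∈ UM X ((m : ℕ) + 1)) (j : Fin n) :
    (φ x).1 m j = (1 : Matrix (Fin n) (Fin n) F) m j := by
  have step : ∀ (k l : Fin n) (c : F) (y : E), (m : ℕ) + 1 ≤ (k : ℕ) → k < l →
      (φ y).1 m j = (1 : Matrix (Fin n) (Fin n) F) m j →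
      (φ (X k l c * y)).1 m j = (1 : Matrix (Fin n) (Fin n) F) m j := by
    intro k l c y hmk hkl h
    have hmk' : m ≠ k := by
      intro e
      rw [e] at hmk
      omega
    rw [map_mul, hX.map k l c (ne_of_lt hkl), tv_mul_ne k l c (ne_of_lt hkl) (φ y) m j hmk', h]
  unfold UM at hx
  induction hx using Subgroup.closure_induction_left with
  | one =>
    rw [map_one]
    rfl
  | mul_left x hx y hy ih =>
    obtain ⟨k, l, c, hk, hkl, rfl⟩ := hx
    exact step k l c y hk hkl ih
  | inv_mul_cancel x hx y hy ih =>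
    obtain ⟨k, l, c, hk, hkl, rfl⟩ := hx
    rw [← hX.neg k l c (ne_of_lt hkl)]
    exact step k l (-c) y hk hkl ih

/-- the groups `UM` meet the kernel trivially -/
lemma UM_ker {φ : E →* SLn n F} {X : Fin n → Fin n → F → E} (hX : Stb φ X) (d : ℕ) :
    ∀ m : ℕ, n ≤ m + d → ∀ x ∈ UM X m, φ x = 1 → x = 1 := by
  have base : ∀ m : ℕ, n ≤ m → ∀ x ∈ UM X m, x = 1 := by
    intro m hm x hx
    unfold UM at hx
    have e : {x : E | ∃ (k l : Fin n) (a : F), m ≤ (k : ℕ) ∧ k < l ∧ x = X k l a} = ∅ := by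
      ext y
      simp only [Set.mem_ofPred_eq, Set.mem_empty_iff_false, iff_false]
      rintro ⟨k, l, a, h, _, _⟩
      have := k.isLt
      omega
    rw [e, Subgroup.closure_empty] at hx
    exact Subgroup.mem_bot.mp hx
  induction d with
  | zero =>
    intro m hm x hx _
    exact base m hm x hx
  | succ d ih =>
    intro m hm x hx hφ
    by_cases hmn : n ≤ m
    · exact base m hmn x hx
    · have hmn' : m < n := Nat.lt_of_not_le hmn
      obtain ⟨r, hr, u, hu, rfl⟩ := UM_split hX ⟨m, hmn'⟩ (Finset.univ.filter (fun j => (⟨m, hmn'⟩ : Fin n) < j))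
        (fun j => by simp) x hx
      have hA : ∀ l ∈ Finset.univ.filter (fun j => (⟨m, hmn'⟩ : Fin n) < j), (⟨m, hmn'⟩ : Fin n) < l := by
        intro l hl
        exact (Finset.mem_filter.mp hl).2
      have h1 : φ r = φ u⁻¹ := by
        rw [map_inv]
        rw [map_mul] at hφ
        exact eq_inv_of_mul_eq_one_left hφ
      have h2 : φ r = 1 := by
        apply Subtype.ext
        apply Matrix.ext
        intro i j
        by_cases hi : i = ⟨m, hmn'⟩
        · rw [hi, h1]
          exact UM_row hX ⟨m, hmn'⟩ u⁻¹ (Subgroup.inv_mem _ hu) j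
        · exact (RA_rows hX ⟨m, hmn'⟩ _ hA r hr).1 i j hi
      have h3 : r = 1 := RA_ker hX ⟨m, hmn'⟩ _ hA r hr h2
      rw [h3, one_mul] at hφ ⊢
      exact ih (m + 1) (by omega) u hu hφ

end

/-- PUHK -/
theorem hPUHK (hPTVR : StPTVR) : StPUHK := by
  intro n F _ E _ _ φ X hn hX x hx hφ
  apply UM_ker hX n 0 (by omega) x _ hφ
  have hle : Up X ≤ UM X 0 := by
    unfold Up UM
    rw [Subgroup.closure_le]
    rintro y ⟨i, j, a, hij, rfl⟩
    exact Subgroup.subset_closure ⟨i, j, a, Nat.zero_le _, hij, rfl⟩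
  exact hle hx

end Pool.Agent.Helper32.ML
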